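import Mathlib
import Pool.Prelude.Def_F_c31e40fa
import Pool.Agent.R449.MB.Ar

set_option autoImplicit false

/-!
# Superattracting parameters near almost every boundary parameter of the Mandelbrot set

At Lebesgue almost every parameter `c` of the Mandelbrot set, in particular at almost every boundary
parameter, for every `κ < 2` all small discs `B(c, r)` contain at most `2 ^ n * r ^ κ`
superattracting parameters of period dividing `n`, for all `n` at the same time, and the averages
of `|a - c| ^ (-κ)` over these parameters `a` are bounded uniformly in `n`; if `c` is renormalizable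
of period `p` then this holds for every `κ < 2 p`.
-/

open Filter Topology Set Metric MeasureTheory Complex N62a1eb23

namespace Pool.Agent.Results.MP_be825a_an.BoundedMoments

/-- The map `z ↦ z ^ 2 + c`. -/
def f (c : ℂ) : ℂ → ℂ := fun z => z ^ 2 + c

/-- The superattracting parameters of period dividing `n` (the centres of the hyperbolic components
of these periods). -/
def centres (n : ℕ) : Set ℂ := {a | (f a)^[n] 0 = 0}

/-- `h` is proper of degree at most `2` from the bounded open set `U` onto a set which contains the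
closure of `U`. Polynomial-like maps of degree `2` have this property. -/
def PolynomialLike (h : ℂ → ℂ) (U : Set ℂ) : Prop :=
  IsOpen U ∧ Bornology.IsBounded U ∧ closure U ⊆ h '' U ∧
    (∀ K ⊆ h '' U, IsCompact K → IsCompact {z | z ∈ U ∧ h z ∈ K}) ∧
    ∀ w ∈ h '' U, {z | z ∈ U ∧ h z = w}.encard ≤ 2

/-- `z ↦ z ^ 2 + c` is renormalizable of period `p`. -/
def Renormalizable (c : ℂ) (p : ℕ) : Prop :=
  ∃ U : Set ℂ, PolynomialLike ((f c)^[p]) U ∧ (0 : ℂ) ∈ U ∧
    (∀ n : ℕ, 1 ≤ n → (f c)^[n * p] 0 ∈ U) ∧ ∀ z ∈ U, deriv ((f c)^[p]) z = 0 → z = 0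

/-- All small discs of radius `r` about `c` contain at most `2 ^ n * r ^ κ` superattracting
parameters of period dividing `n`, for all `n ≥ 1` at the same time. -/
def Sparse (κ : ℝ) (c : ℂ) : Prop :=
  ∀ᶠ r : ℝ in 𝓝[>] 0, ∀ n : ℕ, 1 ≤ n → ((centres n ∩ ball c r).ncard : ℝ) ≤ 2 ^ n * r ^ κ

/-- `c` is not superattracting, and the sum of `|a - c| ^ (-s)` over the superattracting parameters
`a` of period dividing `n` is at most a constant times `2 ^ n`. -/
def BoundedMoments (s : ℝ) (c : ℂ) : Prop :=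
  (∀ n : ℕ, 1 ≤ n → c ∉ centres n) ∧
    ∃ C : ℝ, ∀ n : ℕ, 1 ≤ n → ∑ᶠ a ∈ centres n, dist a c ^ (-s) ≤ C * 2 ^ n

/-- For `q = 1` and for every period `q` of renormalization the moments of all orders less than
`2 q` are bounded, and there are at most `2 ^ n * r ^ κ` centres in small discs for all
`κ < 2 q`. -/
def Isolated (c : ℂ) : Prop :=
  ∀ q : ℕ, 1 ≤ q → (q = 1 ∨ Renormalizable c q) → ∀ κ : ℝ, 0 < κ → κ < 2 * q →
    Sparse κ c ∧ BoundedMoments κ c

theorem centres_eq (N : ℕ) :
    centres (N + 1) = ((Pool.Agent.R240.LL.ZZ 2 N : Finset ℂ) : Set ℂ) := by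
  ext a
  rw [Finset.mem_coe, Pool.Agent.R240.LL.mem_ZZ (d := 2) le_rfl]
  rfl

theorem inter_eq (n : ℕ) (c : ℂ) (r : ℝ) :
    centres n ∩ ball c r = Pool.Agent.R240.Sparse.cen 2 n c r := by
  ext a
  exact and_comm

theorem sparse_iff (κ : ℝ) (c : ℂ) : Sparse κ c ↔ Pool.Agent.R449.MB.FewAt 2 κ c := by
  unfold Sparse Pool.Agent.R449.MB.FewAt
  simp only [inter_eq, Nat.cast_ofNat]

theorem moments_iff (s : ℝ) (c : ℂ) : BoundedMoments s c ↔ Pool.Agent.R449.MB.MomAt 2 s c := by
  unfold BoundedMoments Pool.Agent.R449.MB.MomAt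
  refine and_congr Iff.rfl ?_
  constructor
  · rintro ⟨C, hC⟩
    refine ⟨C, fun N => ?_⟩
    have h1 := hC (N + 1) (by omega)
    rw [centres_eq, finsum_mem_coe_finset] at h1
    simpa only [dist_eq_norm, Nat.cast_ofNat] using h1
  · rintro ⟨C, hC⟩
    refine ⟨C, fun n hn => ?_⟩
    obtain ⟨N, rfl⟩ : ∃ N, n = N + 1 := ⟨n - 1, by omega⟩
    have h1 := hC N
    rw [centres_eq, finsum_mem_coe_finset]
    simpa only [dist_eq_norm, Nat.cast_ofNat] using h1

theorem isolated_iff (c : ℂ) : Isolated c ↔ Pool.Agent.R449.MB.Nice2 2 c := by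
  unfold Isolated Pool.Agent.R449.MB.Nice2
  simp only [sparse_iff, moments_iff]
  exact Iff.rfl

/-- **Superattracting parameters near almost every boundary parameter.** -/
theorem result :
    (∀ n : ℕ, 1 ≤ n → (centres n).Finite) ∧
      volume {c : ℂ | c ∈ mandelbrotSet ∧ ¬ Isolated c} = 0 ∧
      (volume (frontier mandelbrotSet) = 0 ↔
        volume {c : ℂ | c ∈ frontier mandelbrotSet ∧ Isolated c} = 0) := by
  have h0 : volume {c : ℂ | c ∈ mandelbrotSet ∧ ¬ Isolated c} = 0 := by
    simp only [isolated_iff]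
    exact Pool.Agent.R449.MB.null_nice2 (d := 2) le_rfl
  refine ⟨?_, h0, ?_, ?_⟩
  · intro n hn
    obtain ⟨N, rfl⟩ : ∃ N, n = N + 1 := ⟨n - 1, by omega⟩
    rw [centres_eq]
    exact (Pool.Agent.R240.LL.ZZ 2 N).finite_toSet
  · intro h
    refine measure_mono_null ?_ h
    rintro c ⟨hc, -⟩
    exact hc
  · intro h
    refine measure_mono_null (t := {c : ℂ | c ∈ frontier mandelbrotSet ∧ Isolated c} ∪
      {c : ℂ | c ∈ mandelbrotSet ∧ ¬ Isolated c}) ?_ (measure_union_null h h0)
    intro c hc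
    by_cases h1 : Isolated c
    · exact Or.inl ⟨hc, h1⟩
    · exact Or.inr ⟨(Pool.Agent.H712R2.isCompact_multibrot (d := 2) le_rfl).isClosed.frontier_subset
        hc, h1⟩

end Pool.Agent.Results.MP_be825a_an.BoundedMoments
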